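import Pool.Agent.H12.QC.Targets2

/-! row SR1 of MP_63b6b1_nt (board qcf): infinite places and real embeddings -/

set_option autoImplicit false

open NumberField IsDedekindDomain Pool.Agent.H23.QCF Pool.Agent.H12.QC
open Pool.Agent.H32.QC (Sol hil Iso FPl Pl ic hs sqAt nsq)

namespace Pool.Agent.H38.QC

/-- real embeddings and complex embeddings which are real -/
noncomputable def realE (K : Type) [Field K] [NumberField K] :
    {φ : K →+* ℂ // ComplexEmbedding.IsReal φ} ≃ (K →+* ℝ) where
  toFun φ := φ.2.embedding
  invFun f := ⟨Complex.ofRealHom.comp f, by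
    rw [ComplexEmbedding.isReal_iff]
    ext x
    simp [ComplexEmbedding.conjugate_coe_eq]⟩
  left_inv φ := by
    apply Subtype.ext
    ext x
    simp
  right_inv f := by
    ext x
    apply Complex.ofReal_injective
    simp

open Classical in
theorem pf_SR1 : T_R1 := by
  intro K _ _
  have h1 := InfinitePlace.card_eq_nrRealPlaces_add_nrComplexPlaces K
  have h2 := InfinitePlace.card_add_two_mul_card_eq_rank K
  have h4 : Nat.card (K →+* ℝ) = InfinitePlace.nrRealPlaces K := by
    rw [← Nat.card_congr (realE K), Nat.card_congr InfinitePlace.mkReal, Nat.card_eq_fintype_card]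
  rw [h4]
  omega

end Pool.Agent.H38.QC
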